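import Pool.Agent.ROT.Loc

/-!
# SY-1: the optimal sets move monotonically along a line

Let `v` be a direction and `r l = #{l' | <v, b l'> < <v, b l>}` (so `r l < r l'` if
`<v, b l> < <v, b l'>`, and `r l = r l'` if equal), `rho v S = ∑ l ∈ S, r l ≤ N * card S`.

* `mono_at`.  Let `X`, `Y` be optimal at `P` and let `Y` minimise `<v, bs ·>` among the sets
  optimal at `P`.  Then `rho v Y ≤ rho v X`, and `rho v Y < rho v X` if
  `<v, bs Y> < <v, bs X>`.  Induction on `(X \ Y).card`.  If `X \ Y = ∅` then `X = Y`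
  (same cardinality).  Otherwise let `i ∈ X \ Y`; `opt_exch` gives `j ∈ Y \ X` such that
  `X' = X - i + j` and `Y - j + i` are optimal at `P`.  By minimality of `Y`:
  `<v, b i> ≥ <v, b j>`, so `r j ≤ r i`, `rho v X' = rho v X - r i + r j ≤ rho v X`, and the
  inequality is strict if `<v, b i> > <v, b j>`.  The induction hypothesis for `X'`
  (`X' \ Y` is smaller) gives `rho v Y ≤ rho v X' ≤ rho v X`; if `<v, bs Y> < <v, bs X>` then either
  `<v, bs X'> < <v, bs X>`, i.e. `<v, b j> < <v, b i>` and the second inequality is strict, or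
  `<v, bs X'> = <v, bs X> > <v, bs Y>` and the first one is strict.
* `mono`.  Let `S` be optimal at `P` and let `S'` be optimal at `P' = P + x v`, `x ≥ 0`, where `S'`
  minimises `<v, bs ·>` among the sets optimal at `P'`, and let `<v, bs S'> < <v, bs S>`.  Then
  `rho v S' < rho v S`.  Strong induction on the number of all `Q` with `<v, bs Q> < <v, bs S>`.
  If `S` is optimal at `P'`: `mono_at` at `P'`.  Otherwise `x > 0` and the set `F` of all `M`-sets
  `Q` with `h Q P' < h S P'` is nonempty.  `h Q - h S` is affine along the line, `≥ 0` at `P` and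
  `< 0` at `P'` for `Q ∈ F`, so its slope `<v, bs Q - bs S>` is negative and it vanishes at `P + y v`
  with `y = y Q = (h Q P - h S P) / <v, bs S - bs Q> ∈ [0, x)`.  Let `Q0 ∈ F` minimise `y`, and
  `P* = P + y v`, `y = y Q0`.  `S` is optimal at `P*`: for `Q ∈ F` by minimality, for `Q ∉ F`
  because `h Q - h S ≥ 0` at `P` and at `P'` (convexity).  So `Q0` is optimal at `P*` and
  `<v, bs Q0> < <v, bs S>`.  Let `Q*` minimise `<v, bs ·>` among the (finitely many) sets optimal at
  `P*`; `<v, bs Q*> ≤ <v, bs Q0> < <v, bs S>`, and `mono_at` at `P*` gives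
  `rho v Q* < rho v S`.  Since `Q*` is optimal at `P*` and `S'` at `P' = P* + (x-y) v`, `x > y`:
  `<v, bs S'> ≤ <v, bs Q*>` (add the two optimality inequalities; `h_add_smul`).  If `<` holds, the
  induction hypothesis for `Q*`, `P*` gives `rho v S' < rho v Q*`.  If `=` holds then
  `h S' - h Q*` is constant along the line, it is `≥ 0` at `P*` and `≤ 0` at `P'`, so `Q*` is
  optimal at `P'` too, and `mono_at` at `P'` (first part) gives `rho v S' ≤ rho v Q*`.
-/

set_option autoImplicit false

namespace Pool.Agent.ROT.Sys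

variable {N : ℕ} {s : Sys N}

open Classical in
/-- Sum of the ranks (in the direction `v`) of the elements of `S`. -/
noncomputable def rho (s : Sys N) (v : ℝ × ℝ) (S : Finset (Fin N)) : ℕ :=
  ∑ l ∈ S, (Finset.univ.filter fun l' => dt v (s.b l') < dt v (s.b l)).card

open Classical in
/-- the rank -/
noncomputable def monoR (s : Sys N) (v : ℝ × ℝ) (l : Fin N) : ℕ :=
  (Finset.univ.filter fun l' => dt v (s.b l') < dt v (s.b l)).card

theorem mono_rho (v : ℝ × ℝ) (S : Finset (Fin N)) : s.rho v S = ∑ l ∈ S, s.monoR v l := rfl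

theorem monoR_le (v : ℝ × ℝ) {l l' : Fin N} (h : dt v (s.b l) ≤ dt v (s.b l')) :
    s.monoR v l ≤ s.monoR v l' := by
  unfold monoR
  refine Finset.card_le_card fun x hx => ?_
  rw [Finset.mem_filter] at hx ⊢
  exact ⟨hx.1, lt_of_lt_of_le hx.2 h⟩

theorem monoR_lt (v : ℝ × ℝ) {l l' : Fin N} (h : dt v (s.b l) < dt v (s.b l')) :
    s.monoR v l < s.monoR v l' := by
  unfold monoR
  refine Finset.card_lt_card ⟨fun x hx => ?_, fun hc => ?_⟩
  · rw [Finset.mem_filter] at hx ⊢
    exact ⟨hx.1, hx.2.trans h⟩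
  · have h1 : l ∈ Finset.univ.filter fun x => dt v (s.b x) < dt v (s.b l') :=
      Finset.mem_filter.2 ⟨Finset.mem_univ _, h⟩
    have h2 := (Finset.mem_filter.1 (hc h1)).2
    exact lt_irrefl _ h2

theorem rho_le (v : ℝ × ℝ) (S : Finset (Fin N)) : s.rho v S ≤ N * S.card := by
  rw [mono_rho, mul_comm]
  refine (Finset.sum_le_card_nsmul S _ N fun l _ => ?_).trans (le_of_eq (by rw [smul_eq_mul]))
  unfold monoR
  refine (Finset.card_le_univ _).trans (le_of_eq (Fintype.card_fin N))

theorem mono_insert_erase {v : ℝ × ℝ} {S : Finset (Fin N)} {i j : Fin N} (hi : i ∈ S)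
    (hj : j ∉ S) : s.rho v (insert j (S.erase i)) + s.monoR v i = s.rho v S + s.monoR v j := by
  have h1 : j ∉ S.erase i := fun h => hj (Finset.mem_of_mem_erase h)
  rw [mono_rho, mono_rho, Finset.sum_insert h1, ← Finset.add_sum_erase S _ hi]
  omega

theorem rho_insert_erase {v : ℝ × ℝ} {S : Finset (Fin N)} {i j : Fin N} (hi : i ∈ S) (hj : j ∉ S)
    (h : dt v (s.b i) < dt v (s.b j)) : s.rho v S < s.rho v (insert j (S.erase i)) := by
  have h1 := mono_insert_erase (s := s) (v := v) hi hj
  have h2 := monoR_lt v h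
  omega

theorem mono_bs {v : ℝ × ℝ} {S : Finset (Fin N)} {i j : Fin N} (hi : i ∈ S)
    (hj : j ∉ S) : dt v (s.bs (insert j (S.erase i))) =
      dt v (s.bs S) - dt v (s.b i) + dt v (s.b j) := by
  have h1 : j ∉ S.erase i := fun h => hj (Finset.mem_of_mem_erase h)
  rw [s.bs_insert h1, s.bs_erase hi, dt_add_right, dt_sub_right]
  ring

theorem mono_at (hs : s.Good) {v P : ℝ × ℝ} {X Y : Finset (Fin N)} (hX : s.Opt P X)
    (hY : s.Opt P Y) (hmin : ∀ Q, s.Opt P Q → dt v (s.bs Y) ≤ dt v (s.bs Q)) :
    s.rho v Y ≤ s.rho v X ∧ (dt v (s.bs Y) < dt v (s.bs X) → s.rho v Y < s.rho v X) := by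
  induction hn : (X \ Y).card using Nat.strong_induction_on generalizing X with
  | _ n ih =>
    by_cases he : X \ Y = ∅
    · have hXY : X = Y := Finset.eq_of_subset_of_card_le (Finset.sdiff_eq_empty_iff_subset.1 he)
        (by rw [hX.1, hY.1])
      rw [hXY]
      exact ⟨le_rfl, fun h => absurd h (lt_irrefl _)⟩
    · obtain ⟨i, hi⟩ := Finset.nonempty_iff_ne_empty.2 he
      obtain ⟨j, hj, hX', hY'⟩ := opt_exch hs hX hY hi
      rw [Finset.mem_sdiff] at hi hj
      have h1 := hmin _ hY'
      rw [mono_bs hj.1 hi.2] at h1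
      have h3 := mono_insert_erase (s := s) (v := v) hi.1 hj.2
      have h4 := mono_bs (s := s) (v := v) hi.1 hj.2
      have hlt : (insert j (X.erase i) \ Y).card < n := by
        rw [← hn]
        refine Finset.card_lt_card ⟨fun x hx => ?_, fun hc => ?_⟩
        · rw [Finset.mem_sdiff, Finset.mem_insert, Finset.mem_erase] at hx
          rw [Finset.mem_sdiff]
          rcases hx.1 with h | h
          · exact absurd (h ▸ hj.1) hx.2
          · exact ⟨h.2, hx.2⟩
        · have h5 := hc (Finset.mem_sdiff.2 hi)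
          rw [Finset.mem_sdiff, Finset.mem_insert, Finset.mem_erase] at h5
          rcases h5.1 with h | h
          · exact hi.2 (h ▸ hj.1)
          · exact h.1 rfl
      obtain ⟨k1, k2⟩ := ih _ hlt hX' rfl
      have h6 : s.monoR v j ≤ s.monoR v i := monoR_le v (by linarith)
      refine ⟨by omega, fun h => ?_⟩
      by_cases h7 : dt v (s.b j) < dt v (s.b i)
      · have h8 := monoR_lt v h7
        omega
      · have h9 : dt v (s.b j) = dt v (s.b i) := le_antisymm (by linarith) (not_lt.1 h7)
        have := k2 (by rw [h4, h9]; linarith)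
        omega

theorem mono (hs : s.Good) {v P : ℝ × ℝ} {x : ℝ} (hx : 0 ≤ x) {S S' : Finset (Fin N)}
    (hS : s.Opt P S) (hS' : s.Opt (P + x • v) S')
    (hmin : ∀ Q, s.Opt (P + x • v) Q → dt v (s.bs S') ≤ dt v (s.bs Q))
    (hlt : dt v (s.bs S') < dt v (s.bs S)) : s.rho v S' < s.rho v S := by
  classical
  generalize hP' : P + x • v = P' at hS' hmin
  induction hn : (Finset.univ.filter fun Q : Finset (Fin N) =>
    dt v (s.bs Q) < dt v (s.bs S)).card using Nat.strong_induction_on generalizing P x S with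
  | _ n ih =>
    by_cases hSP : s.Opt P' S
    · exact (mono_at hs hSP hS' hmin).2 hlt
    · have hval : ∀ Q, s.h Q P' = s.h Q P + x * dt v (s.bs Q) := fun Q => by
        rw [← hP', s.h_add_smul]
      set F : Finset (Finset (Fin N)) := Finset.univ.filter fun Q =>
        Q.card = s.M ∧ s.h Q P' < s.h S P' with hF
      have hFne : F.Nonempty := by
        by_contra hc
        rw [Finset.not_nonempty_iff_eq_empty] at hc
        apply hSP
        refine ⟨hS.1, fun R hR => ?_⟩
        by_contra hlt'
        have : R ∈ F := Finset.mem_filter.2 ⟨Finset.mem_univ _, hR, not_le.1 hlt'⟩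
        rw [hc] at this
        exact absurd this (Finset.notMem_empty _)
      have hFD : ∀ Q ∈ F, 0 < dt v (s.bs S) - dt v (s.bs Q) := by
        intro Q hQ
        obtain ⟨-, hQc, hQl⟩ := Finset.mem_filter.1 hQ
        rw [hval, hval] at hQl
        have h1 := hS.2 Q hQc
        by_contra hc
        have h2 : x * (dt v (s.bs S) - dt v (s.bs Q)) ≤ 0 :=
          mul_nonpos_of_nonneg_of_nonpos hx (not_lt.1 hc)
        rw [mul_sub] at h2
        linarith
      obtain ⟨Q0, hQ0, hQ0min⟩ := Finset.exists_min_image F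
        (fun Q => (s.h Q P - s.h S P) / (dt v (s.bs S) - dt v (s.bs Q))) hFne
      obtain ⟨y, hy⟩ : ∃ y, y = (s.h Q0 P - s.h S P) / (dt v (s.bs S) - dt v (s.bs Q0)) :=
        ⟨_, rfl⟩
      have hD0 := hFD Q0 hQ0
      obtain ⟨-, hQ0c, hQ0l⟩ := Finset.mem_filter.1 hQ0
      have hyD : y * (dt v (s.bs S) - dt v (s.bs Q0)) = s.h Q0 P - s.h S P := by
        rw [hy]
        exact div_mul_cancel₀ _ hD0.ne'
      have hy0 : 0 ≤ y := by
        rw [hy]
        exact div_nonneg (sub_nonneg.2 (hS.2 Q0 hQ0c)) hD0.le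
      have hyx : y < x := by
        rw [hy, div_lt_iff₀ hD0]
        rw [hval, hval] at hQ0l
        rw [mul_sub]
        linarith
      have hvals : ∀ Q, s.h Q (P + y • v) = s.h Q P + y * dt v (s.bs Q) := fun Q => by
        rw [s.h_add_smul]
      have hSs : s.Opt (P + y • v) S := by
        refine ⟨hS.1, fun R hR => ?_⟩
        rw [hvals, hvals]
        by_cases hRF : R ∈ F
        · have h1 := hQ0min R hRF
          rw [← hy, le_div_iff₀ (hFD R hRF), mul_sub] at h1
          linarith
        · have h1 : s.h S P' ≤ s.h R P' := by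
            by_contra hc
            exact hRF (Finset.mem_filter.2 ⟨Finset.mem_univ _, hR, not_le.1 hc⟩)
          rw [hval, hval] at h1
          have h2 := hS.2 R hR
          rcases le_total (dt v (s.bs S)) (dt v (s.bs R)) with h3 | h3
          · have := mul_le_mul_of_nonneg_left h3 hy0
            linarith
          · have h4 : y * (dt v (s.bs S) - dt v (s.bs R)) ≤ x * (dt v (s.bs S) - dt v (s.bs R)) :=
              mul_le_mul_of_nonneg_right hyx.le (sub_nonneg.2 h3)
            rw [mul_sub, mul_sub] at h4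
            linarith
      have hQ0s : s.Opt (P + y • v) Q0 := hSs.of_le hQ0c (by
        rw [hvals, hvals]
        rw [mul_sub] at hyD
        linarith)
      obtain ⟨Qs, hQs, hQsmin⟩ := Finset.exists_min_image (s.opts (P + y • v))
        (fun Q => dt v (s.bs Q)) ⟨S, (s.mem_opts).2 hSs⟩
      rw [mem_opts] at hQs
      have hQsmin' : ∀ Q, s.Opt (P + y • v) Q → dt v (s.bs Qs) ≤ dt v (s.bs Q) :=
        fun Q hQ => hQsmin Q ((s.mem_opts).2 hQ)
      have hQsS : dt v (s.bs Qs) < dt v (s.bs S) := by
        have := hQsmin' Q0 hQ0s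
        linarith
      have k1 := (mono_at hs hSs hQs hQsmin').2 hQsS
      have hP2 : (P + y • v) + (x - y) • v = P' := by
        rw [← hP', add_assoc, ← add_smul]
        congr 2
        ring
      have hval2 : ∀ Q, s.h Q P' = s.h Q (P + y • v) + (x - y) * dt v (s.bs Q) := fun Q => by
        rw [← hP2, s.h_add_smul]
      have h5 := hQs.2 S' hS'.1
      have h6 := hS'.2 Qs hQs.1
      rw [hval2, hval2] at h6
      have hle : dt v (s.bs S') ≤ dt v (s.bs Qs) := by
        by_contra hc
        have := mul_lt_mul_of_pos_left (not_le.1 hc) (sub_pos.2 hyx)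
        linarith
      rcases hle.lt_or_eq with h7 | h7
      · have hcard : (Finset.univ.filter fun Q : Finset (Fin N) =>
            dt v (s.bs Q) < dt v (s.bs Qs)).card < n := by
          rw [← hn]
          refine Finset.card_lt_card ⟨fun Q hQ => ?_, fun hc => ?_⟩
          · rw [Finset.mem_filter] at hQ ⊢
            exact ⟨hQ.1, hQ.2.trans hQsS⟩
          · have h8 := hc (Finset.mem_filter.2 ⟨Finset.mem_univ Qs, hQsS⟩)
            exact lt_irrefl _ (Finset.mem_filter.1 h8).2
        exact (ih _ hcard (sub_nonneg.2 hyx.le) hQs h7 hP2 rfl).trans k1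
      · have hQsP : s.Opt P' Qs := hS'.of_le hQs.1 (by
          rw [hval2, hval2, h7]
          linarith)
        exact lt_of_le_of_lt (mono_at hs hQsP hS' hmin).1 k1

end Pool.Agent.ROT.Sys
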