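import Pool.Agent.H63.SY.Mono
import Pool.Agent.ROT.UnbA

/-!
# SY-2: the number of unbounded walls, without general position

* `unb_min`: if `S` is optimal at `t + x w` for all `x ≥ 0` then `dt w (bs S) ≤ dt w (bs Q)` for all
  `M`-sets `Q` (`unbA_le_of_ray`).
* `unb_exch`: let `Unb S R`, `w = dir S R`, with the point `t`.  `w ≠ 0` (`bs_inj`, as in
  `unb_form`).  Let `i ∈ S \ R` (`S ≠ R` have the same cardinality).  `opt_exch` at `t` gives
  `j ∈ R \ S` such that `Q = S - i + j` is optimal at `t`.  By `unbA_star` for `S` and for `R`: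
  `dt w (b i) = dt w (b j)`, so `dt w (bs Q - bs S) = 0`, and `dt w (bs R - bs S) = 0`
  (`dt_dir_self`); with `w ≠ 0`: `cr (bs Q - bs S) (bs R - bs S) = 0` (`unbA_cr_eq_zero`).  By
  `cr_ne` (Loc.lean) three different sets optimal at one point have a nonzero cross
  product, and `Q ≠ S`, `S ≠ R`; so `Q = R`.
* `unb_card_le'`.  For `(S,R) ∈ unb` choose `i, j` from `unb_exch`, and map `(S,R)` to
  `(i, j, rho v S)`, `v = b j - b i = bs R - bs S`, an element of a set with
  `N * N * (N * M + 1)` elements (`rho_le`).  Injective: let `(S,R)` and `(S',R')` have the same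
  image.  `w = rot v = dir S R = dir S' R'`; `v ≠ 0`.  Let `t`, `t'` be the points from `Unb`.  It is
  enough to show `S = S'` (then `R = S - i + j = R'`).  Assume `S ≠ S'`.  Write
  `t' - t = α v + β w` (`α = <t'-t, v> / <v,v>`, `β = <t'-t, w> / <v,v>`, `w = rot v`), and let
  `P = t + x w`, `P' = t' + x' w`, where `x, x' ≥ 0` are such that `P' = P + α v`
  (`x = max β 0`, `x' = x - β`).  All of `S, R` are optimal at `P` and `S', R'` are optimal at `P'`.
  Moreover `dt w (bs S) = dt w (bs S')` by `unb_min` (both are minimal).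
  Case `α = 0`: `S, R, S'` are optimal at `P`, and `cr (bs S' - bs S) (bs R - bs S) = 0` as before,
  so two of them are equal by `cr_ne`: `S' = R`.  But
  `rho v S < rho v R = rho v S'` by `rho_insert_erase` (`<v, b j> - <v, b i> = <v,v> > 0`), a
  contradiction.
  Case `α > 0` (the case `α < 0` is symmetric).  The sets optimal at `P'`, and also at
  `P' + y w`, ...: we need that `S'` minimises `<v, bs ·>` among the sets optimal at a point
  `P'' = P' + y w` with `y` large, and `S` is optimal at `P + y w`, so replace `P, P'` by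
  these.  Choose `y ≥ 0` such that every set `Q` optimal at `P' + y w` has
  `dt w (bs Q) = dt w (bs S')`: if `Q` is an `M`-set with `dt w (bs Q) > dt w (bs S')` then
  `h Q - h S'` at `P' + y w` is positive for large `y` (finitely many `Q`).  Then for a set `Q`
  optimal at `P' + y w`, `Q ≠ S', R'`, the three different sets `S', R', Q` would have zero cross
  product, contradiction; so only `S'` and `R'` are optimal there, and
  `<v, bs S'> < <v, bs R'>`.  So `S'` is the minimiser.
  Now `<v, bs S'> ≤ <v, bs S>` (monotonicity: add the optimality inequalities of `S` at `P + y w` and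
  of `S'` at `P' + y w = (P + y w) + α v`).  If `<` holds, `mono` gives `rho v S' < rho v S`, a
  contradiction.  If `=` holds then `bs S = bs S'` (the same `dt v` and the same `dt w`, and
  `v ≠ 0`, `w = rot v`), so `h S - h S'` is constant, `≤ 0` at the first point and `≥ 0` at the
  second one, so both are optimal at one point and `bs_inj` gives `S = S'`, a contradiction.
-/

set_option autoImplicit false

namespace Pool.Agent.ROT.Sys

variable {N : ℕ} {s : Sys N}

/-- an optimal set on a ray minimises the slope -/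
theorem unbB_min {S : Finset (Fin N)} {t w : ℝ × ℝ}
    (h : ∀ x : ℝ, 0 ≤ x → s.Opt (t + x • w) S) {Q : Finset (Fin N)} (hQ : Q.card = s.M) :
    dt w (s.bs S) ≤ dt w (s.bs Q) := by
  apply unbA_le_of_ray (a := s.h S t) (c := s.h Q t)
  intro x hx
  have h2 := (h x hx).2 _ hQ
  rwa [h_add_smul, h_add_smul] at h2

/-- every set optimal at an inner point of the ray has the same slope -/
theorem unbB_far {S : Finset (Fin N)} {t w : ℝ × ℝ}
    (h : ∀ x : ℝ, 0 ≤ x → s.Opt (t + x • w) S) {y : ℝ} (hy : 0 < y) {Q : Finset (Fin N)}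
    (hQ : s.Opt (t + y • w) Q) : dt w (s.bs Q) = dt w (s.bs S) := by
  refine le_antisymm ?_ (unbB_min h hQ.1)
  have h1 := hQ.eq (h y hy.le)
  have h0 : s.h S t ≤ s.h Q t := by
    have h2 := (h 0 le_rfl).2 Q hQ.1
    rwa [zero_smul, add_zero] at h2
  rw [h_add_smul, h_add_smul] at h1
  by_contra hlt
  push Not at hlt
  have h3 := mul_lt_mul_of_pos_left hlt hy
  linarith

theorem unbB_dt_self_pos {v : ℝ × ℝ} (hv : v ≠ 0) : 0 < dt v v := by
  simp only [dt]
  rcases eq_or_ne v.1 0 with h1 | h1
  · have h2 : v.2 ≠ 0 := fun h2 => hv (Prod.ext h1 h2)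
    have := mul_self_pos.2 h2
    nlinarith [mul_self_nonneg v.1]
  · have := mul_self_pos.2 h1
    nlinarith [mul_self_nonneg v.2]

theorem unbB_rot_ne {v : ℝ × ℝ} (hv : v ≠ 0) : rot v ≠ 0 := by
  intro h
  simp only [rot, Prod.ext_iff, Prod.fst_zero, Prod.snd_zero] at h
  exact hv (Prod.ext h.2 (by simpa using h.1))

theorem unbB_decomp {v : ℝ × ℝ} (hv : v ≠ 0) (u : ℝ × ℝ) :
    u = (dt u v / dt v v) • v + (dt u (rot v) / dt v v) • rot v := by
  have h0 := (unbB_dt_self_pos hv).ne'
  apply Prod.ext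
  · simp only [Prod.fst_add, Prod.smul_fst, smul_eq_mul]
    field_simp
    simp only [dt, rot]
    ring
  · simp only [Prod.snd_add, Prod.smul_snd, smul_eq_mul]
    field_simp
    simp only [dt, rot]
    ring

theorem unbB_eq {v : ℝ × ℝ} (hv : v ≠ 0) {a b : ℝ × ℝ} (h1 : dt v a = dt v b)
    (h2 : dt (rot v) a = dt (rot v) b) : a = b := by
  have h := unbB_decomp hv (a - b)
  rw [dt_comm (a - b) v, dt_comm (a - b) (rot v), dt_sub_right, dt_sub_right, h1, h2, sub_self,
    sub_self, zero_div, zero_smul, zero_smul, add_zero] at h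
  exact sub_eq_zero.1 h

theorem unb_exch (hs : s.Good) {S R : Finset (Fin N)} (h : s.Unb S R) :
    ∃ i j : Fin N, i ∈ S ∧ j ∉ S ∧ R = insert j (S.erase i) ∧ s.bs R - s.bs S = s.b j - s.b i ∧
      s.b j - s.b i ≠ 0 := by
  obtain ⟨hne, t, ht⟩ := h
  have hSo : ∀ x : ℝ, 0 ≤ x → s.Opt (t + x • s.dir S R) S := fun x hx => (ht x hx).1
  have hRo : ∀ x : ℝ, 0 ≤ x → s.Opt (t + x • s.dir S R) R := fun x hx => (ht x hx).2
  have hS0 : s.Opt t S := by
    have h1 := hSo 0 le_rfl
    rwa [zero_smul, add_zero] at h1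
  have hR0 : s.Opt t R := by
    have h1 := hRo 0 le_rfl
    rwa [zero_smul, add_zero] at h1
  have hv0 : s.bs R - s.bs S ≠ 0 := fun h0 => hne (bs_inj hs hS0 hR0 (sub_eq_zero.1 h0).symm)
  have hw : s.dir S R ≠ 0 := unbB_rot_ne hv0
  obtain ⟨i, hi⟩ : (S \ R).Nonempty := by
    rw [Finset.nonempty_iff_ne_empty]
    intro h0
    rw [Finset.sdiff_eq_empty_iff_subset] at h0
    exact hne (Finset.eq_of_subset_of_card_le h0 (hR0.1.trans hS0.1.symm).le)
  obtain ⟨j, hj, hQ, -⟩ := opt_exch hs hS0 hR0 hi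
  rw [Finset.mem_sdiff] at hi hj
  have hij : dt (s.dir S R) (s.b i) = dt (s.dir S R) (s.b j) :=
    le_antisymm (unbA_star hSo hi.1 hj.2) (unbA_star hRo hj.1 hi.2)
  have hjX : j ∉ S.erase i := fun hh => hj.2 (Finset.mem_of_mem_erase hh)
  have hQS : s.bs (insert j (S.erase i)) - s.bs S = s.b j - s.b i := by
    rw [bs_insert s hjX, bs_erase s hi.1]
    abel
  have hne2 : S ≠ insert j (S.erase i) := fun hh =>
    hj.2 (hh ▸ Finset.mem_insert_self j (S.erase i))
  have hRQ : R = insert j (S.erase i) := by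
    by_contra hcon
    refine cr_ne hs hS0 hQ hR0 hne2 hne (Ne.symm hcon) (unbA_cr_eq_zero hw ?_ (dt_dir_self s S R))
    rw [hQS, dt_sub_right, hij, sub_self]
  have hbs : s.bs R - s.bs S = s.b j - s.b i := by
    rw [hRQ]
    exact hQS
  exact ⟨i, j, hi.1, hj.2, hRQ, hbs, hbs ▸ hv0⟩

/-- the main step: two walls with the same `i`, `j` have different ranks -/
theorem unbB_key (hs : s.Good) {i j : Fin N} (hv : s.b j - s.b i ≠ 0) {S S' : Finset (Fin N)}
    (hiS : i ∈ S) (hjS : j ∉ S) (hiS' : i ∈ S') (hjS' : j ∉ S') {t t' : ℝ × ℝ}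
    (hS : ∀ x : ℝ, 0 ≤ x → s.Both S (insert j (S.erase i)) (t + x • rot (s.b j - s.b i)))
    (hS' : ∀ x : ℝ, 0 ≤ x → s.Both S' (insert j (S'.erase i)) (t' + x • rot (s.b j - s.b i)))
    {α β : ℝ} (hα : 0 ≤ α)
    (ht : t' = t + α • (s.b j - s.b i) + β • rot (s.b j - s.b i)) (hne : S ≠ S') :
    s.rho (s.b j - s.b i) S ≠ s.rho (s.b j - s.b i) S' := by
  set v := s.b j - s.b i with hvdef
  have hvv : dt v (s.b i) < dt v (s.b j) := by
    have h1 := unbB_dt_self_pos hv
    have h2 : dt v v = dt v (s.b j) - dt v (s.b i) := by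
      conv_lhs => rw [hvdef]
      rw [← hvdef, dt_sub_right]
    linarith
  have hw : rot v ≠ 0 := unbB_rot_ne hv
  have hwij : dt (rot v) (s.b j - s.b i) = 0 := by
    rw [← hvdef, dt_rot, cr_self]
  have hjX : ∀ {T : Finset (Fin N)}, j ∉ T → j ∉ T.erase i :=
    fun h hh => h (Finset.mem_of_mem_erase hh)
  have hbs : ∀ {T : Finset (Fin N)}, i ∈ T → j ∉ T →
      s.bs (insert j (T.erase i)) - s.bs T = s.b j - s.b i := by
    intro T h1 h2
    rw [bs_insert s (hjX h2), bs_erase s h1]
    abel
  have hneT : ∀ {T : Finset (Fin N)}, j ∉ T → T ≠ insert j (T.erase i) := fun h hh =>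
    h (hh ▸ Finset.mem_insert_self j _)
  have hslope : dt (rot v) (s.bs S) = dt (rot v) (s.bs S') :=
    le_antisymm (unbB_min (fun x hx => (hS x hx).1) (hS' 0 le_rfl).1.1)
      (unbB_min (fun x hx => (hS' x hx).1) (hS 0 le_rfl).1.1)
  set y' : ℝ := 1 + |β| with hy'
  have hy'0 : 0 < y' := by positivity
  set y : ℝ := β + y' with hy
  have hy0 : 0 < y := by
    have := neg_abs_le β
    rw [hy, hy']
    linarith
  have hP : t + y • rot v + α • v = t' + y' • rot v := by
    rw [ht, hy]
    module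
  rcases hα.eq_or_lt with h0 | hpos
  · -- all four sets are optimal at one point
    have hP0 : t + y • rot v = t' + y' • rot v := by
      rw [← hP, ← h0, zero_smul, add_zero]
    have hO := hS y hy0.le
    have hO' := hS' y' hy'0.le
    rw [← hP0] at hO'
    have hRS' : insert j (S.erase i) = S' := by
      by_contra hcon
      refine cr_ne hs hO.1 hO.2 hO'.1 (hneT hjS) hne hcon (unbA_cr_eq_zero hw ?_ ?_)
      · rw [hbs hiS hjS, hwij]
      · rw [dt_sub_right, hslope, sub_self]
    have h1 := s.rho_insert_erase hiS hjS hvv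
    rw [hRS'] at h1
    exact h1.ne
  · have hO : s.Opt (t + y • rot v) S := (hS y hy0.le).1
    have hO' : s.Opt (t + y • rot v + α • v) S' := by
      rw [hP]
      exact (hS' y' hy'0.le).1
    have hR' : s.Opt (t + y • rot v + α • v) (insert j (S'.erase i)) := by
      rw [hP]
      exact (hS' y' hy'0.le).2
    have hmin : ∀ Q, s.Opt (t + y • rot v + α • v) Q → dt v (s.bs S') ≤ dt v (s.bs Q) := by
      intro Q hQ
      rcases eq_or_ne S' Q with h1 | h1
      · rw [h1]
      rcases eq_or_ne (insert j (S'.erase i)) Q with h2 | h2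
      · have h3 := hbs hiS' hjS'
        rw [h2] at h3
        have h4 : dt v (s.bs Q - s.bs S') = dt v (s.b j - s.b i) := by rw [h3]
        rw [dt_sub_right, dt_sub_right] at h4
        linarith
      · exfalso
        refine cr_ne hs hO' hR' hQ (hneT hjS') h1 h2 (unbA_cr_eq_zero hw ?_ ?_)
        · rw [hbs hiS' hjS', hwij]
        · rw [hP] at hQ
          rw [dt_sub_right, unbB_far (fun x hx => (hS' x hx).1) hy'0 hQ, sub_self]
    have h1 := hO.2 S' hO'.1
    have h2 := hO'.2 S hO.1
    rw [h_add_smul s S' _ v α, h_add_smul s S _ v α] at h2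
    have hle : dt v (s.bs S') ≤ dt v (s.bs S) := by
      by_contra hlt
      push Not at hlt
      have h3 := mul_lt_mul_of_pos_left hlt hpos
      linarith
    rcases hle.lt_or_eq with hlt | heq
    · exact (mono hs hpos.le hO hO' hmin hlt).ne'
    · exfalso
      have hbb : s.bs S = s.bs S' := unbB_eq hv heq.symm hslope
      have hSP : s.Opt (t + y • rot v + α • v) S := by
        refine hO'.of_le hO.1 ?_
        rw [h_add_smul s S' _ v α, h_add_smul s S _ v α, heq]
        linarith
      exact hne (bs_inj hs hSP hO' hbb)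

theorem unb_card_le' (hs : s.Good) : s.unb.card ≤ N * N * (N * s.M + 1) := by
  classical
  choose i j hi hj hR hbs hne using fun p : {p // p ∈ s.unb} => unb_exch hs (mem_unb s |>.1 p.2)
  have hdir : ∀ p : {p // p ∈ s.unb}, s.dir p.1.1 p.1.2 = rot (s.b (j p) - s.b (i p)) := by
    intro p
    rw [dir, hbs]
  have hcard : ∀ p : {p // p ∈ s.unb}, p.1.1.card = s.M := by
    intro p
    obtain ⟨-, t, ht⟩ := (mem_unb s).1 p.2
    exact (ht 0 le_rfl).1.1
  let f : {p // p ∈ s.unb} → (Fin N × Fin N) × Fin (N * s.M + 1) := fun p =>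
    ((i p, j p), ⟨s.rho (s.b (j p) - s.b (i p)) p.1.1, by
      have h1 := s.rho_le (s.b (j p) - s.b (i p)) p.1.1
      rw [hcard p] at h1
      omega⟩)
  have hf : Function.Injective f := by
    intro p q hpq
    have e1 : i p = i q := congrArg (fun z => z.1.1) hpq
    have e2 : j p = j q := congrArg (fun z => z.1.2) hpq
    have e3 : s.rho (s.b (j p) - s.b (i p)) p.1.1 = s.rho (s.b (j q) - s.b (i q)) q.1.1 :=
      congrArg (fun z => (z.2 : ℕ)) hpq
    rw [← e1, ← e2] at e3
    obtain ⟨-, t, ht⟩ := (mem_unb s).1 p.2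
    obtain ⟨-, t', ht'⟩ := (mem_unb s).1 q.2
    rw [hdir p] at ht
    rw [hdir q] at ht'
    have hjq := hj q
    have hiq := hi q
    have hRq := hR q
    rw [← e1] at hiq hRq
    rw [← e2] at hjq hRq
    rw [← e1, ← e2] at ht'
    rw [hR p] at ht
    rw [hRq] at ht'
    have hd := unbB_decomp (hne p) (t' - t)
    have hSS : p.1.1 = q.1.1 := by
      by_contra hcon
      rcases le_total 0 (dt (t' - t) (s.b (j p) - s.b (i p)) /
        dt (s.b (j p) - s.b (i p)) (s.b (j p) - s.b (i p))) with h0 | h0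
      · refine unbB_key hs (hne p) (hi p) (hj p) hiq hjq ht ht' h0
          (β := dt (t' - t) (rot (s.b (j p) - s.b (i p))) /
            dt (s.b (j p) - s.b (i p)) (s.b (j p) - s.b (i p))) ?_ hcon e3
        rw [add_assoc, ← hd]
        abel
      · refine unbB_key hs (hne p) hiq hjq (hi p) (hj p) ht' ht (neg_nonneg.2 h0)
          (β := -(dt (t' - t) (rot (s.b (j p) - s.b (i p))) /
            dt (s.b (j p) - s.b (i p)) (s.b (j p) - s.b (i p)))) ?_ (Ne.symm hcon) e3.symm
        rw [neg_smul, neg_smul, add_assoc, ← neg_add, ← hd]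
        abel
    apply Subtype.ext
    apply Prod.ext hSS
    rw [hR p, hRq, hSS]
  have h1 := Fintype.card_le_of_injective f hf
  rw [Fintype.card_coe] at h1
  simpa using h1

end Pool.Agent.ROT.Sys
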